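import Pool.Agent.Helper89.A8.Stmts

/-! A8-M09: the left factor of a nonzero admissible pairing of simple modules is small (helper97). -/

set_option autoImplicit false

namespace Pool.Agent.A8

open Matrix

theorem BAD_iso {X : Type} [AddCommGroup X] [Module RG X] (hX : IsSimpleModule RG X) (a : Ty)
    (h9 : S_SIM) (f : Md a →ₗ[RG] X) (v : Md a) (hv : f v ≠ 0) :
    ∃ a, Nonempty (X ≃ₗ[RG] Md a) := by
  have ha : IsSimpleModule RG (Md a) := h9 a
  have hf : f ≠ 0 := by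
    intro h
    rw [h] at hv
    exact hv rfl
  have hb := LinearMap.bijective_of_ne_zero hf
  exact ⟨a, ⟨(LinearEquiv.ofBijective f hb).symm⟩⟩

theorem bBAD (h1 : S_HECKE) (h2 : S_HV000) (h3 : S_HV101) (h4 : S_HV111) (h5 : S_HV100)
    (h6 : S_HV010) (h7 : S_HV001) (h8 : S_TRI) (h9 : S_SIM) : S_BAD := by
  intro X Y S _ _ _ _ _ _ _ _ _ hX hY hS fX fY fS p hp hne
  have hX' : IsSimpleModule RG X := hX
  have hnt : Nontrivial X := IsSimpleModule.nontrivial RG X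
  obtain ⟨J, w, hw⟩ := h1 X
  have hw0 : w ≠ 0 := hw.1
  have hJ : J = ![J 0, J 1, J 2] := by
    funext i; fin_cases i <;> rfl
  rw [hJ] at hw
  rcases h0 : J 0 with _ | _ <;> rcases h1' : J 1 with _ | _ <;> rcases h2' : J 2 with _ | _ <;>
    rw [h0, h1', h2'] at hw
  · exact absurd hw (h2 X fX w)
  · obtain ⟨f, hf⟩ := h7 X w hw
    exact BAD_iso hX .d h9 f _ (fun h => hw0 (hf.symm.trans h))
  · obtain ⟨f, hf⟩ := h6 X w hw
    exact BAD_iso hX .l h9 f _ (by rw [hf]; exact hw0)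
  · exfalso
    obtain ⟨x, y, hxy⟩ := hne
    exact hxy (h8 X Y S hX hY hS fX fY fS p hp ⟨w, Or.inr hw⟩ x y)
  · obtain ⟨f, hf⟩ := h5 X w hw
    exact BAD_iso hX .v h9 f _ (by rw [hf]; exact hw0)
  · exact absurd hw (h3 X fX w)
  · exfalso
    obtain ⟨x, y, hxy⟩ := hne
    exact hxy (h8 X Y S hX hY hS fX fY fS p hp ⟨w, Or.inl hw⟩ x y)
  · exact absurd hw (h4 X fX w)

end Pool.Agent.A8
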