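import Pool.Agent.Helper89.A8.Stmts
import Pool.Agent.Helper89.A8.GTools

/-! A8-G03: Frobenius lifts and frames (helper97). -/

set_option autoImplicit false

namespace Pool.Agent.A8

open Matrix

/-- A fixed point of the affine action `k ↦ b k a⁻¹` of a cyclic group of odd prime order on a
2-group. -/
theorem FROB_conj {G : Type} [Group G] [Finite G] (M : Subgroup G) (hM : IsPGroup 2 M) (p : ℕ)
    (hp : p.Prime) (hp2 : p ≠ 2) (a b : G) (ha : a ^ p = 1) (hb : b ^ p = 1)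
    (hab : ∀ k ∈ M, b * k * a⁻¹ ∈ M) : ∃ k ∈ M, k * a * k⁻¹ = b := by
  classical
  have : Fact p.Prime := ⟨hp⟩
  have : Fintype M := Fintype.ofFinite M
  let f : Function.End M := fun k => ⟨b * k * a⁻¹, hab k k.2⟩
  have hf : ∀ (n : ℕ) (k : M), (((f ^ n) k : M) : G) = b ^ n * k * (a ^ n)⁻¹ := by
    intro n
    induction n with
    | zero => intro k; simp; rfl
    | succ n ih =>
      intro k
      rw [pow_succ' f]
      show b * (((f ^ n) k : M) : G) * a⁻¹ = _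
      rw [ih, pow_succ' b, pow_succ a]
      group
  have hfp : f ^ p ^ 1 = 1 := by
    funext k
    apply Subtype.ext
    rw [hf, pow_one, ha, hb]
    simp
    rfl
  have hcard := Equiv.Perm.card_fixedPoints_modEq (f := f) (p := p) (n := 1) hfp
  obtain ⟨m, hm⟩ := IsPGroup.iff_card.1 hM
  have hne : Fintype.card (Function.fixedPoints f) ≠ 0 := by
    intro h0
    rw [h0, ← Nat.card_eq_fintype_card, hm] at hcard
    have h1 : p ∣ 2 ^ m := (Nat.modEq_zero_iff_dvd).1 hcard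
    have h2 : p ∣ 2 := hp.dvd_of_dvd_pow h1
    exact hp2 ((Nat.prime_dvd_prime_iff_eq hp Nat.prime_two).1 h2)
  obtain ⟨k, hk⟩ : Nonempty (Function.fixedPoints f) := by
    rwa [← not_isEmpty_iff, ← Fintype.card_eq_zero_iff]
  have hk' : b * (k : G) * a⁻¹ = k := congrArg Subtype.val hk
  refine ⟨k, k.2, ?_⟩
  rw [mul_inv_eq_iff_eq_mul, ← eq_mul_inv_iff_mul_eq]
  exact hk'.symm

/-- a power of exponent `4 ^ j` kills the 2-part -/
theorem FROB_pow {G : Type} [Group G] [Finite G] {π : G →* Gam} (hc : Cfg π) (x : G)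
    (hx : π x ^ 3 = 1) : ∃ j : ℕ, (x ^ 4 ^ j) ^ 3 = 1 ∧ π (x ^ 4 ^ j) = π x := by
  have h1 : x ^ 3 ∈ π.ker := by rw [MonoidHom.mem_ker, map_pow, hx]
  obtain ⟨j, hj⟩ := hc.ker2 ⟨x ^ 3, h1⟩
  have hj' : (x ^ 3) ^ 2 ^ j = 1 := congrArg Subtype.val hj
  have h4 : ∃ q, 4 ^ j = 3 * q + 1 := by
    have : 4 ^ j % 3 = 1 := by
      rw [Nat.pow_mod]; norm_num
    exact ⟨4 ^ j / 3, by omega⟩
  obtain ⟨q, hq⟩ := h4
  refine ⟨j, ?_, ?_⟩
  · rw [← pow_mul, mul_comm, pow_mul, show (4 : ℕ) ^ j = 2 ^ j * 2 ^ j by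
      rw [← mul_pow]; norm_num, pow_mul, hj', one_pow]
  · rw [map_pow, hq, pow_add, pow_mul, hx, one_pow, one_mul, pow_one]

theorem FROB_gs3 : gs ^ 3 = 1 := by
  apply Units.ext
  decide

theorem FROB_gr3 : gr ^ 3 = 1 := by
  apply Units.ext
  decide

theorem bFROB (_h1 : S_COP) (h2 : S_LIFT) : S_FROB := by
  intro G _ _ π hc s hs hπs
  obtain ⟨x, hx, hx7⟩ := h2 G π hc gh 7 (by decide) gh_7
  -- conjugate of `x ^ 2`
  obtain ⟨k0, hk0, hk0'⟩ := FROB_conj π.ker hc.ker2 7 (by norm_num) (by norm_num) (x ^ 2)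
    (s * x * s⁻¹) (by rw [← pow_mul, mul_comm, pow_mul, hx7, one_pow])
    (by rw [conj_pow, hx7]; group) (by
      intro k hk
      rw [MonoidHom.mem_ker] at hk ⊢
      rw [map_mul, map_mul, hk, map_mul, map_mul, map_inv, map_inv, map_pow, hx, hπs, gs_gh]
      group)
  set s1 := k0⁻¹ * s with hs1
  have h3 : s1 * x * s1⁻¹ = x ^ 2 := by
    rw [hs1, show k0⁻¹ * s * x * (k0⁻¹ * s)⁻¹ = k0⁻¹ * (s * x * s⁻¹) * k0 by group, ← hk0']
    group
  have hπs1 : π s1 = gs := by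
    rw [hs1, map_mul, map_inv, MonoidHom.mem_ker.1 hk0, hπs]; group
  obtain ⟨j, hj3, hjπ⟩ := FROB_pow hc s1 (by rw [hπs1, FROB_gs3])
  have h4 : ∀ n : ℕ, s1 ^ n * x * (s1 ^ n)⁻¹ = x ^ 2 ^ n := by
    intro n
    induction n with
    | zero => simp
    | succ n ih =>
      rw [pow_succ' s1, show s1 * s1 ^ n * x * (s1 * s1 ^ n)⁻¹ =
        s1 * (s1 ^ n * x * (s1 ^ n)⁻¹) * s1⁻¹ by group, ih, ← conj_pow, h3, ← pow_mul,
        pow_succ']
  have h5 : s1 ^ 4 ^ j * x * (s1 ^ 4 ^ j)⁻¹ = x ^ 2 := by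
    rw [h4]
    have h4' : ∃ q, 4 ^ j = 3 * q + 1 := by
      have : 4 ^ j % 3 = 1 := by
        rw [Nat.pow_mod]; norm_num
      exact ⟨4 ^ j / 3, by omega⟩
    obtain ⟨q, hq⟩ := h4'
    have h6 : ∃ r, 2 ^ 4 ^ j = 7 * r + 2 := by
      have : 2 ^ 4 ^ j % 7 = 2 := by
        rw [hq, pow_succ, pow_mul, Nat.mul_mod, Nat.pow_mod]; norm_num
      exact ⟨2 ^ 4 ^ j / 7, by omega⟩
    obtain ⟨r, hr⟩ := h6
    rw [hr, pow_add, pow_mul, hx7, one_pow, one_mul]
  set s2 := s1 ^ 4 ^ j with hs2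
  obtain ⟨k, hk, hk'⟩ := FROB_conj π.ker hc.ker2 3 (by norm_num) (by norm_num) s2 s hj3 hs (by
    intro k hk
    rw [MonoidHom.mem_ker] at hk ⊢
    rw [map_mul, map_mul, hk, map_inv, hjπ, hπs1, hπs]
    group)
  refine ⟨k * x * k⁻¹, ⟨?_, ?_, ?_⟩⟩
  · rw [conj_pow, hx7]; group
  · rw [map_mul, map_mul, map_inv, MonoidHom.mem_ker.1 hk, hx]; group
  · rw [conj_pow, ← h5, ← hk']
    group

theorem bFRAME (h1 : S_LIFTC) (_h2 : S_COP) : S_FRAME := by
  intro G _ _ π hc s hs hπs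
  obtain ⟨r0, hr0, hr0s⟩ := h1 G π hc s gr hs (by rw [hπs, gs_gr])
  obtain ⟨t0, ht0, ht0s⟩ := h1 G π hc s gt hs (by rw [hπs, gt_gs])
  obtain ⟨j, hj3, hjπ⟩ := FROB_pow hc r0 (by rw [hr0, FROB_gr3])
  set r := r0 ^ 4 ^ j with hr
  have hrs : r * s = s * r := by
    have : Commute r0 s := hr0s
    exact (this.pow_left _)
  have hπr : π r = gr := by rw [hjπ, hr0]
  -- the centraliser of `s` in the kernel
  let M : Subgroup G := Subgroup.centralizer {s} ⊓ π.ker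
  have hM : IsPGroup 2 M := hc.ker2.to_le inf_le_right
  have hmem : ∀ y : G, y ∈ M ↔ s * y = y * s ∧ π y = 1 := by
    intro y
    rw [Subgroup.mem_inf, Subgroup.mem_centralizer_singleton_iff, MonoidHom.mem_ker,
      eq_comm (a := y * s)]
  obtain ⟨k, hk, hk'⟩ := FROB_conj M hM 3 (by norm_num) (by norm_num) (t0 * r * t0⁻¹) r⁻¹
    (by rw [conj_pow, hj3, mul_one, mul_inv_cancel]) (by rw [inv_pow, hj3, inv_one]) (by
      intro k hk
      rw [hmem] at hk ⊢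
      have c1 : Commute s k := hk.1
      have c2 : Commute s r := hrs.symm
      have c3 : Commute s t0 := Eq.symm ht0s
      refine ⟨?_, ?_⟩
      · have : Commute s (r⁻¹ * k * (t0 * r * t0⁻¹)⁻¹) :=
          (c2.inv_right.mul_right c1).mul_right ((c3.mul_right c2).mul_right c3.inv_right).inv_right
        exact this
      · rw [map_mul, map_mul, map_inv, map_inv, map_mul, map_mul, map_inv, hk.2, hπr, ht0, gt_gr]
        group)
  rw [hmem] at hk
  refine ⟨r, k * t0, ⟨hs, hj3, hrs.symm, ?_, ?_, hπs, hπr, ?_⟩⟩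
  · have c1 : Commute k s := hk.1.symm
    have c3 : Commute t0 s := ht0s
    exact c1.mul_left c3
  · rw [← hk']; group
  · rw [map_mul, hk.2, ht0, one_mul]

end Pool.Agent.A8
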