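import Pool.Agent.Helper89.A8.Stmts
import Pool.Agent.Helper89.A8.GTools
import Pool.Agent.Helper97.A8.FROB

/-! A8-G11: locals are generated by involutions (helper97). -/

set_option autoImplicit false

namespace Pool.Agent.A8

open Matrix

/-- an element of the kernel commuting with an element of order 5 or 7 has order at most 2 -/
theorem INV_sq {G : Type} [Group G] [Finite G] {π : G →* Gam} (hc : Cfg π) {n : ℕ}
    (hn : n = 5 ∨ n = 7) {x y : G} (hy : orderOf y = n) (hx : x ∈ π.ker) (hxy : Commute x y) :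
    x * x = 1 := by
  obtain ⟨j, hj⟩ := hc.ker2 ⟨x, hx⟩
  have hj' : x ^ 2 ^ j = 1 := congrArg Subtype.val hj
  obtain ⟨i, _, hi⟩ := (Nat.dvd_prime_pow Nat.prime_two).1 (orderOf_dvd_of_pow_eq_one hj')
  rcases Nat.lt_or_ge i 2 with h | h
  · have h2 : orderOf x ∣ 2 := by
      rw [hi]
      exact pow_dvd_pow 2 (by omega : i ≤ 1)
    rw [← pow_two]
    exact orderOf_dvd_iff_pow_eq_one.1 h2
  · exfalso
    have h4 : orderOf (x ^ 2 ^ (i - 2)) = 4 := by
      rw [orderOf_pow_of_dvd (by positivity) (by rw [hi]; exact pow_dvd_pow 2 (by omega)), hi,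
        Nat.pow_div (by omega) (by norm_num), show i - (i - 2) = 2 by omega]
    have hcop : Nat.Coprime (orderOf (x ^ 2 ^ (i - 2))) (orderOf y) := by
      rw [h4, hy]
      rcases hn with rfl | rfl <;> decide
    have ho := (hxy.pow_left (2 ^ (i - 2))).orderOf_mul_eq_mul_orderOf_of_coprime hcop
    rw [h4, hy] at ho
    rcases hn with rfl | rfl
    · exact hc.n20 _ ho
    · exact hc.n28 _ ho

theorem INV_main {G : Type} [Group G] [Finite G] {π : G →* Gam} (hc : Cfg π) (h2 : S_LIFT)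
    (R : Subgroup G) (a : Ty) (φ : G → Md a) (hR : Loc π R a φ) (n : ℕ) (hn : n = 5 ∨ n = 7)
    (g : Gam) (hg : g ^ n = 1) (hg1 : g ≠ 1) (m : Md a) (hm : m ≠ 0) (hgm : act g m = m) :
    R = Subgroup.closure {x | x ∈ R ∧ x * x = 1} := by
  have hnp : n.Prime := by rcases hn with rfl | rfl <;> norm_num
  have hn2 : n ≠ 2 := by rcases hn with rfl | rfl <;> norm_num
  have : Fact n.Prime := ⟨hnp⟩
  obtain ⟨y, hπy, hyn⟩ := h2 G π hc g n (hnp.odd_of_ne_two hn2) hg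
  have hy1 : y ≠ 1 := by
    intro h
    rw [h, map_one] at hπy
    exact hg1 hπy.symm
  have hyo : orderOf y = n := orderOf_eq_prime hyn hy1
  obtain ⟨x0, hx0, hφ0⟩ := hR.surj m
  have hH := hR.toHomOn
  have hker2 : IsPGroup 2 hH.kerG := hc.ker2.to_le (hH.kerG_le.trans hR.le)
  obtain ⟨k, hk, hk'⟩ := FROB_conj hH.kerG hker2 n hnp hn2 (x0 * y * x0⁻¹) y
    (by rw [conj_pow, hyn, mul_one, mul_inv_cancel]) hyn (by
      intro k hk
      rw [HomOn.mem_kerG] at hk ⊢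
      have e : y * k * (x0 * y * x0⁻¹)⁻¹ = (y * k * y⁻¹) * (y * x0 * y⁻¹) * x0⁻¹ := by group
      have m1 : y * k * y⁻¹ ∈ R := hR.normal.conj_mem k hk.1 y
      have m2 : y * x0 * y⁻¹ ∈ R := hR.normal.conj_mem x0 hx0 y
      rw [e]
      refine ⟨R.mul_mem (R.mul_mem m1 m2) (R.inv_mem hx0), ?_⟩
      rw [hH.map_mul_inv (R.mul_mem m1 m2) hx0, hH.mul _ m1 _ m2, hH.conj y k hk.1,
        hH.conj y x0 hx0, hk.2, act_zero, zero_add, hφ0, hπy, hgm]
      exact add_self m)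
  rw [HomOn.mem_kerG] at hk
  -- the element `k * x0`
  have hxR : k * x0 ∈ R := R.mul_mem hk.1 hx0
  have hφx : φ (k * x0) = m := by rw [hH.mul _ hk.1 _ hx0, hk.2, zero_add, hφ0]
  have hcomm : Commute (k * x0) y := by
    have h3 : k * x0 * y = y * (k * x0) := by
      calc k * x0 * y = (k * (x0 * y * x0⁻¹) * k⁻¹) * (k * x0) := by group
        _ = y * (k * x0) := by rw [hk']
    exact h3
  have hsq : (k * x0) * (k * x0) = 1 := INV_sq hc hn hyo (hR.le hxR) hcomm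
  -- the subgroup generated by the involutions
  set C := Subgroup.closure {x | x ∈ R ∧ x * x = 1} with hC
  have hCR : C ≤ R := by
    rw [hC, Subgroup.closure_le]
    exact fun x hx => hx.1
  have hCn : C.Normal := by
    constructor
    intro x hx u
    have hmap : C.map (MulAut.conj u).toMonoidHom ≤ C := by
      rw [hC, MonoidHom.map_closure, Subgroup.closure_le]
      rintro _ ⟨z, ⟨hz, hz2⟩, rfl⟩
      refine Subgroup.subset_closure ⟨hR.normal.conj_mem z hz u, ?_⟩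
      show u * z * u⁻¹ * (u * z * u⁻¹) = 1
      calc u * z * u⁻¹ * (u * z * u⁻¹) = u * (z * z) * u⁻¹ := by group
        _ = 1 := by rw [hz2]; group
    exact hmap ⟨x, hx, rfl⟩
  exact (hR.top C hCn hCR ⟨k * x0, Subgroup.subset_closure ⟨hxR, hsq⟩, by rw [hφx]; exact hm⟩).symm

/-- an element of order 5 -/
def INV_g5 : Gam := mkG !![0,0,0,1; 1,0,0,1; 0,1,0,1; 0,0,1,1] !![1,1,0,0; 1,0,1,0; 1,0,0,1; 1,0,0,0]
  (by decide) (by decide)

theorem INV_g5_5 : INV_g5 ^ 5 = 1 := by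
  apply Units.ext
  decide

theorem INV_g5_ne : INV_g5 ≠ 1 := by
  intro h
  have := congrArg Units.val h
  revert this
  decide

theorem INV_gh_ne : gh ≠ 1 := by
  intro h
  have := congrArg Units.val h
  revert this
  decide

/-- an element of order 5 fixing a nonzero vector of `L` -/
theorem INV_l : ∃ m : ML, m ≠ 0 ∧ act INV_g5 m = m := by
  have h : ∃ m : V6, m ≠ 0 ∧ actL INV_g5.1 m = m := by decide +kernel
  obtain ⟨m, hm, hm'⟩ := h
  exact ⟨m, hm, (act_ML _ _).trans hm'⟩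

theorem bINV (_h1 : S_COP) (h2 : S_LIFT) : S_INV := by
  intro G _ _ π hc R a φ hR
  cases a with
  | v =>
    refine INV_main hc h2 R .v φ hR 7 (Or.inr rfl) gh gh_7 INV_gh_ne vE0 (by decide) ?_
    rw [act_MV]
    show (gh.1 *ᵥ (![1, 0, 0, 0] : Fin 4 → ZMod 2) : Fin 4 → ZMod 2) = ![1, 0, 0, 0]
    decide
  | d =>
    refine INV_main hc h2 R .d φ hR 7 (Or.inr rfl) gh gh_7 INV_gh_ne dE0 (by decide) ?_
    rw [act_MD]
    show ((gh⁻¹).1ᵀ *ᵥ (![1, 0, 0, 0] : Fin 4 → ZMod 2) : Fin 4 → ZMod 2) = ![1, 0, 0, 0]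
    decide
  | l =>
    obtain ⟨m, hm, hg⟩ := INV_l
    exact INV_main hc h2 R .l φ hR 5 (Or.inl rfl) INV_g5 INV_g5_5 INV_g5_ne m hm hg

/-! ### the centre of `K` -/

theorem ZEL_pow8 {G : Type} [Group G] [Finite G] {π : G →* Gam} (hc : Cfg π) {h : Gam}
    (hh : orderOf h = 4) (x : G) (hx : π x = h) : x ^ 8 = 1 := by
  have h1 : x ^ 4 ∈ π.ker := by
    rw [MonoidHom.mem_ker, map_pow, hx]
    exact orderOf_dvd_iff_pow_eq_one.1 (by rw [hh])
  obtain ⟨j, hj⟩ := hc.ker2 ⟨x ^ 4, h1⟩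
  have hj' : (x ^ 4) ^ 2 ^ j = 1 := congrArg Subtype.val hj
  have hj2 : x ^ 2 ^ (j + 2) = 1 := by
    rw [pow_add, mul_comm, show (2 : ℕ) ^ 2 = 4 by norm_num, pow_mul]; exact hj'
  obtain ⟨i, _, hi⟩ := (Nat.dvd_prime_pow Nat.prime_two).1 (orderOf_dvd_of_pow_eq_one hj2)
  rcases Nat.lt_or_ge i 4 with h | h
  · have h2 : orderOf x ∣ 8 := by
      rw [hi, show (8 : ℕ) = 2 ^ 3 by norm_num]
      exact pow_dvd_pow 2 (by omega)
    exact orderOf_dvd_iff_pow_eq_one.1 h2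
  · exfalso
    apply hc.n16 (x ^ 2 ^ (i - 4))
    rw [orderOf_pow_of_dvd (by positivity) (by rw [hi]; exact pow_dvd_pow 2 (by omega)), hi,
      Nat.pow_div (by omega) (by norm_num), show i - (i - 4) = 4 by omega]

/-- the norm -/
def ZEL_N {G : Type} [Group G] (u w : G) : G :=
  w * (u * w * u⁻¹) * (u ^ 2 * w * (u ^ 2)⁻¹) * (u ^ 3 * w * (u ^ 3)⁻¹)

theorem ZEL_norm {G : Type} [Group G] [Finite G] {π : G →* Gam} (hc : Cfg π) {h : Gam}
    (hh : orderOf h = 4) (u : G) (hu : π u = h) {w : G} (hw : w ∈ ZK π) :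
    ZEL_N u w * ZEL_N u w = 1 := by
  have hn := ZK_normal π
  have hN : ZEL_N u w ∈ ZK π :=
    (ZK π).mul_mem ((ZK π).mul_mem ((ZK π).mul_mem hw (hn.conj_mem w hw u))
      (hn.conj_mem w hw _)) (hn.conj_mem w hw _)
  have hu4 : u ^ 4 ∈ π.ker := by
    rw [MonoidHom.mem_ker, map_pow, hu]
    exact orderOf_dvd_iff_pow_eq_one.1 (by rw [hh])
  have h1 : (w * u) ^ 4 = ZEL_N u w * u ^ 4 := by
    unfold ZEL_N
    simp only [pow_succ, pow_zero, one_mul]
    group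
  have h2 : (w * u) ^ 8 = 1 := ZEL_pow8 hc hh (w * u) (by
    rw [map_mul, hu, MonoidHom.mem_ker.1 (ZK_le π hw), one_mul])
  have h3 : u ^ 8 = 1 := ZEL_pow8 hc hh u hu
  have hcomm : u ^ 4 * ZEL_N u w = ZEL_N u w * u ^ 4 := (mem_ZK.1 hN).1 _ hu4
  have h4 : (w * u) ^ 8 = (ZEL_N u w * ZEL_N u w) * u ^ 8 := by
    rw [show (8 : ℕ) = 4 + 4 by norm_num, pow_add, h1, pow_add]
    calc ZEL_N u w * u ^ 4 * (ZEL_N u w * u ^ 4) = ZEL_N u w * (u ^ 4 * ZEL_N u w) * u ^ 4 := by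
          group
      _ = _ := by rw [hcomm]; group
  rw [h2, h3, mul_one] at h4
  exact h4.symm

theorem ZK_comm {G : Type} [Group G] {π : G →* Gam} {x y : G} (hx : x ∈ ZK π) (hy : y ∈ ZK π) :
    Commute x y := (mem_ZK.1 hy).1 x (ZK_le π hx)

/-- the squares of the elements of `ZK` -/
def ZEL_Z2 {G : Type} [Group G] (π : G →* Gam) : Subgroup G where
  carrier := {x | ∃ z ∈ ZK π, z * z = x}
  one_mem' := ⟨1, (ZK π).one_mem, by simp⟩
  mul_mem' := by
    rintro a b ⟨z, hz, rfl⟩ ⟨z', hz', rfl⟩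
    refine ⟨z * z', (ZK π).mul_mem hz hz', ?_⟩
    have := ZK_comm hz hz'
    calc z * z' * (z * z') = z * (z' * z) * z' := by group
      _ = z * (z * z') * z' := by rw [this.eq]
      _ = _ := by group
  inv_mem' := by
    rintro a ⟨z, hz, rfl⟩
    exact ⟨z⁻¹, (ZK π).inv_mem hz, by group⟩

theorem bZEL (h1 : S_SIMQ) (h2 : S_NH) : S_ZEL := by
  intro G _ _ π hc
  by_contra hcon
  push Not at hcon
  obtain ⟨z0, hz0, hz0'⟩ := hcon
  set Z2 := ZEL_Z2 π with hZ2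
  have hZ2ZK : Z2 ≤ ZK π := by
    rintro _ ⟨z, hz, rfl⟩
    exact (ZK π).mul_mem hz hz
  have hZ2n : Z2.Normal := by
    constructor
    rintro _ ⟨z, hz, rfl⟩ g
    exact ⟨g * z * g⁻¹, (ZK_normal π).conj_mem z hz g, by group⟩
  have hZ2ne : Z2 ≠ ⊥ := by
    intro h
    have : z0 * z0 ∈ Z2 := ⟨z0, hz0, rfl⟩
    rw [h, Subgroup.mem_bot] at this
    exact hz0' this
  -- a maximal `G`-subgroup
  obtain ⟨M, hM⟩ : ∃ M : Subgroup G, Maximal (fun W : Subgroup G => W.Normal ∧ W < Z2) M := by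
    refine (Set.toFinite {W : Subgroup G | W.Normal ∧ W < Z2}).exists_maximal ⟨⊥, ?_⟩
    exact ⟨inferInstance, bot_lt_iff_ne_bot.2 hZ2ne⟩
  obtain ⟨S, _, _, _, φ, hφ, hF, hS⟩ := h1 G π hc Z2 M hZ2n hM.prop.1 hM.prop.2
    (hZ2ZK.trans (ZK_le π)) (by
      intro W hW hMW hWZ
      rcases eq_or_ne W Z2 with h | h
      · exact Or.inr h
      · left
        exact le_antisymm (hM.le_of_ge ⟨hW, lt_of_le_of_ne hWZ h⟩ hMW) hMW)
  obtain ⟨h, hh, x, hx⟩ := h2 S hS hF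
  obtain ⟨y, hy, hyx⟩ := hφ.surj x
  obtain ⟨z, hz, rfl⟩ := id hy
  obtain ⟨u, hu⟩ := hc.surj h
  apply hx
  have hH := hφ.toHomOn
  have hn := ZK_normal π
  have e1 : ZEL_N u (z * z) = ZEL_N u z * ZEL_N u z := by
    unfold ZEL_N
    have c1 : u * z * u⁻¹ ∈ ZK π := hn.conj_mem z hz u
    have c2 : u ^ 2 * z * (u ^ 2)⁻¹ ∈ ZK π := hn.conj_mem z hz _
    have c3 : u ^ 3 * z * (u ^ 3)⁻¹ ∈ ZK π := hn.conj_mem z hz _
    set a := u * z * u⁻¹ with ha
    set b := u ^ 2 * z * (u ^ 2)⁻¹ with hb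
    set c := u ^ 3 * z * (u ^ 3)⁻¹ with hcc
    have ea : u * (z * z) * u⁻¹ = a * a := by rw [ha]; group
    have eb : u ^ 2 * (z * z) * (u ^ 2)⁻¹ = b * b := by rw [hb]; group
    have ec : u ^ 3 * (z * z) * (u ^ 3)⁻¹ = c * c := by rw [hcc]; group
    rw [ea, eb, ec]
    have k1 : z * a = a * z := ZK_comm hz c1
    have k2 : (z * a) * b = b * (z * a) := ZK_comm ((ZK π).mul_mem hz c1) c2
    have k3 : (z * a * b) * c = c * (z * a * b) :=
      ZK_comm ((ZK π).mul_mem ((ZK π).mul_mem hz c1) c2) c3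
    calc z * z * (a * a) * (b * b) * (c * c) = z * (z * a) * a * (b * b) * (c * c) := by group
      _ = z * (a * z) * a * (b * b) * (c * c) := by rw [k1]
      _ = (z * a) * ((z * a) * b) * b * (c * c) := by group
      _ = (z * a) * (b * (z * a)) * b * (c * c) := by rw [k2]
      _ = (z * a * b) * ((z * a * b) * c) * c := by group
      _ = (z * a * b) * (c * (z * a * b)) * c := by rw [k3]
      _ = z * a * b * c * (z * a * b * c) := by group
  have e2 : ZEL_N u (z * z) = 1 := by rw [e1]; exact ZEL_norm hc hh u hu hz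
  have m1 : u * (z * z) * u⁻¹ ∈ Z2 := hZ2n.conj_mem _ hy u
  have m2 : u ^ 2 * (z * z) * (u ^ 2)⁻¹ ∈ Z2 := hZ2n.conj_mem _ hy _
  have m3 : u ^ 3 * (z * z) * (u ^ 3)⁻¹ ∈ Z2 := hZ2n.conj_mem _ hy _
  have e3 : φ (ZEL_N u (z * z)) = nrm4 h x := by
    unfold ZEL_N nrm4
    rw [hH.mul _ (Z2.mul_mem (Z2.mul_mem hy m1) m2) _ m3, hH.mul _ (Z2.mul_mem hy m1) _ m2,
      hH.mul _ hy _ m1, hH.conj u _ hy, hH.conj (u ^ 2) _ hy, hH.conj (u ^ 3) _ hy, map_pow,
      map_pow, hu, hyx]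
  rw [← e3, e2, hH.map_one]

theorem bABEL (h1 : S_COV) (h2 : S_INV) (h3 : S_ZEL) : S_ABEL := by
  intro G _ _ π hc B hB hBK hcomm
  let T : Subgroup G :=
    { carrier := {x | x ∈ B ∧ x * x = 1}
      one_mem' := ⟨B.one_mem, by simp⟩
      mul_mem' := by
        rintro a b ⟨ha, ha'⟩ ⟨hb, hb'⟩
        refine ⟨B.mul_mem ha hb, ?_⟩
        calc a * b * (a * b) = a * (b * a) * b := by group
          _ = a * (a * b) * b := by rw [hcomm b hb a ha]
          _ = (a * a) * (b * b) := by group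
          _ = 1 := by rw [ha', hb', one_mul]
      inv_mem' := by
        rintro a ⟨ha, ha'⟩
        refine ⟨B.inv_mem ha, ?_⟩
        calc a⁻¹ * a⁻¹ = (a * a)⁻¹ := by group
          _ = 1 := by rw [ha', inv_one] }
  have hT : T.Normal := by
    constructor
    rintro x ⟨hx, hx'⟩ g
    refine ⟨hB.conj_mem x hx g, ?_⟩
    calc g * x * g⁻¹ * (g * x * g⁻¹) = g * (x * x) * g⁻¹ := by group
      _ = 1 := by rw [hx']; group
  by_cases hle : B ≤ T
  · exact fun x hx => (hle hx).2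
  · exfalso
    obtain ⟨D, hD, hDB, hDT, _, hD'⟩ := h1 G π hc B T hB hT hBK hle
    rcases hD' with ⟨a, φ, hloc, _⟩ | hZ
    · apply hDT
      rw [h2 G π hc D a φ hloc, Subgroup.closure_le]
      rintro x ⟨hx, hx'⟩
      exact ⟨hDB hx, hx'⟩
    · apply hDT
      intro x hx
      exact ⟨hDB hx, h3 G π hc x (hZ hx)⟩

end Pool.Agent.A8
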